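import Mathlib
import Pool.Agent.TH481.DenseMinor9
import Pool.Agent.TH446.HN.Crit2

/-!
# Hadwiger's conjecture for graphs with sparse complements: from small induced subgraphs to all

Let the complement of every induced subgraph of `G` on `u` vertices have at most `d u` edges (for
example, let the complement of `G` be `d`-degenerate). If Hadwiger's conjecture holds for all
induced subgraphs of `G` with fewer than `6400 d ^ 2` vertices, then it holds for `G`. So it holds
for `G` if these induced subgraphs have a clique with as many vertices as they need colours; and for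
a hereditary class of graphs with `d`-degenerate complements, for example the complements of planar
graphs (`d = 3`), Hadwiger's conjecture, and its off-by-one form Q1, are finite problems.
-/

set_option autoImplicit false

namespace Pool.Agent.Results.MP_b47bfb_co.LocalToGlobal

/-- `K_k` is a minor of `G`: there are `k` pairwise disjoint vertex sets, each inducing a connected
subgraph, any two of them joined by an edge of `G`. -/
def HasCliqueMinor {V : Type} (G : SimpleGraph V) (k : ℕ) : Prop :=
  ∃ f : Fin k → Set V,
    (∀ i, (G.induce (f i)).Connected) ∧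
    (∀ i j, i ≠ j → Disjoint (f i) (f j)) ∧
    (∀ i j, i ≠ j → ∃ u ∈ f i, ∃ v ∈ f j, G.Adj u v)

/-- The number of missing edges of `G`: the number of edges of the complement of `G`. -/
noncomputable def missing {V : Type} (G : SimpleGraph V) : ℕ := (Gᶜ.edgeSet).ncard

/-- For `e = 0`: Q1 holds for `G` (if `G` is not `j`-colourable then `K_j` is a minor of `G`).
For `e = 1`: Hadwiger's conjecture holds for `G` (`K_{j + 1}` is a minor of `G`). -/
def Had {V : Type} (e : ℕ) (G : SimpleGraph V) : Prop :=
  ∀ j : ℕ, ¬ G.Colorable j → HasCliqueMinor G (j + e)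

/-- Every induced subgraph of `G` has at most `d` times as many missing edges as vertices. -/
def SparseCompl {V : Type} (d : ℕ) (G : SimpleGraph V) : Prop :=
  ∀ U : Set V, missing (G.induce U) ≤ d * U.ncard

/-- The constant: `6400` for Hadwiger's conjecture, `409600` for its off-by-one form. -/
def cst (e : ℕ) : ℕ := if e = 0 then 409600 else 6400

/-- A smallest counterexample to Hadwiger's conjecture, or to its off-by-one form, has many missing
edges. -/
theorem min_missing {V : Type} [Fintype V] (e : ℕ) (he : e ≤ 1) (G : SimpleGraph V)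
    (hG : ¬ Had e G) (hmin : ∀ U : Set V, U ≠ Set.univ → Had e (G.induce U)) :
    Fintype.card V ^ 3 < cst e * missing G ^ 2 := by
  classical
  unfold Had at hG
  push Not at hG
  obtain ⟨k, h1, h2⟩ := hG
  obtain rfl | rfl : e = 0 ∨ e = 1 := by omega
  · have := TH481.DM.min_offbyone G Gᶜ (fun u v => by rw [SimpleGraph.compl_adj]) k h1 h2
      (fun U hU j hj => hmin U hU j hj)
    rw [← TH481.DM.ncard_edges Gᶜ] at this
    exact this
  · have := TH481.DM.min_hadwiger G Gᶜ (fun u v => by rw [SimpleGraph.compl_adj]) k h1 h2
      (fun U hU j hj => hmin U hU j hj)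
    rw [← TH481.DM.ncard_edges Gᶜ] at this
    exact this

open TH446.HN.Crit (indIso) in
/-- Every counterexample contains a minimal one. -/
theorem local_missing {V : Type} [Finite V] (e : ℕ) (he : e ≤ 1) (G : SimpleGraph V)
    (h : ¬ Had e G) : ∃ U : Set V, ¬ Had e (G.induce U) ∧
      (∀ X : Set U, X ≠ Set.univ → Had e ((G.induce U).induce X)) ∧
      U.ncard ^ 3 < cst e * missing (G.induce U) ^ 2 := by
  classical
  have iso : ∀ {V W : Type} (G : SimpleGraph V) (G' : SimpleGraph W), (G ≃g G') →
      Had e G → Had e G' := fun G G' φ h => TH446.HN.Crit.had_iso G G' φ e h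
  have key : ∀ n : ℕ, ∀ U : Set V, U.ncard = n → ¬ Had e (G.induce U) →
      ∃ U' : Set V, ¬ Had e (G.induce U') ∧
        (∀ X : Set U', X ≠ Set.univ → Had e ((G.induce U').induce X)) ∧
        U'.ncard ^ 3 < cst e * missing (G.induce U') ^ 2 := by
    intro n
    induction n using Nat.strong_induction_on with
    | _ n ih =>
      intro U hU hnot
      by_cases hex : ∃ X : Set U, X ≠ Set.univ ∧ ¬ Had e ((G.induce U).induce X)
      · obtain ⟨X, hX, hXn⟩ := hex
        have hlt : (Subtype.val '' X : Set V).ncard < n := by
          rw [← hU]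
          apply Set.ncard_lt_ncard _ (Set.toFinite _)
          rw [Set.ssubset_iff_subset_ne]
          refine ⟨?_, ?_⟩
          · rintro _ ⟨x, _, rfl⟩; exact x.2
          · intro heq
            apply hX
            ext x
            simp only [Set.mem_univ, iff_true]
            have : x.1 ∈ Subtype.val '' X := by rw [heq]; exact x.2
            obtain ⟨y, hy, hyx⟩ := this
            rwa [Subtype.ext hyx] at hy
        refine ih _ hlt (Subtype.val '' X) rfl ?_
        intro hh
        exact hXn (iso _ _ (indIso G U X) hh)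
      · push Not at hex
        have : Fintype U := Fintype.ofFinite U
        refine ⟨U, hnot, hex, ?_⟩
        have := min_missing e he (G.induce U) hnot hex
        rwa [← Nat.card_eq_fintype_card, Nat.card_coe_set_eq] at this
  refine key _ Set.univ rfl ?_
  intro hh
  exact h (iso _ _ (SimpleGraph.induceUnivIso G) hh)

/-- Isomorphic graphs have the same number of missing edges. -/
theorem missing_iso {V W : Type} (G : SimpleGraph V) (G' : SimpleGraph W) (φ : G ≃g G') :
    missing G = missing G' := by
  have hφ : ∀ a b, Gᶜ.Adj a b ↔ G'ᶜ.Adj (φ a) (φ b) := by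
    intro a b
    rw [SimpleGraph.compl_adj, SimpleGraph.compl_adj, φ.injective.ne_iff, φ.map_adj_iff]
  have hinj : Function.Injective (Sym2.map φ) := Sym2.map.injective φ.injective
  have himg : G'ᶜ.edgeSet = Sym2.map φ '' Gᶜ.edgeSet := by
    ext s
    constructor
    · intro hs
      induction s using Sym2.ind with
      | _ x y =>
        rw [SimpleGraph.mem_edgeSet] at hs
        refine ⟨s(φ.symm x, φ.symm y), ?_, ?_⟩
        · rw [SimpleGraph.mem_edgeSet, hφ, φ.apply_symm_apply, φ.apply_symm_apply]
          exact hs
        · rw [Sym2.map_mk, φ.apply_symm_apply, φ.apply_symm_apply]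
    · rintro ⟨t, ht, rfl⟩
      induction t using Sym2.ind with
      | _ x y =>
        rw [SimpleGraph.mem_edgeSet] at ht
        rw [Sym2.map_mk, SimpleGraph.mem_edgeSet]
        exact (hφ x y).1 ht
  unfold missing
  rw [himg, Set.ncard_image_of_injective _ hinj]

theorem ncard_val {V : Type} (U : Set V) (X : Set U) :
    (Subtype.val '' X : Set V).ncard = X.ncard :=
  Set.ncard_image_of_injective _ Subtype.val_injective

/-- Induced subgraphs inherit the sparseness of the complement. -/
theorem SparseCompl.induce {V : Type} {d : ℕ} {G : SimpleGraph V} (h : SparseCompl d G)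
    (U : Set V) : SparseCompl d (G.induce U) := by
  intro X
  rw [← missing_iso _ _ (TH446.HN.Crit.indIso G U X), ← ncard_val U X]
  exact h _

theorem SparseCompl.iso {V W : Type} {d : ℕ} {G : SimpleGraph V} {G' : SimpleGraph W}
    (h : SparseCompl d G) (φ : G ≃g G') : SparseCompl d G' := by
  intro X
  have e : G.induce (φ ⁻¹' X) ≃g G'.induce X :=
    { toFun := fun x => ⟨φ x.1, x.2⟩
      invFun := fun x => ⟨φ.symm x.1, by
        show φ (φ.symm x.1) ∈ X
        rw [φ.apply_symm_apply]
        exact x.2⟩
      left_inv := fun x => Subtype.ext (φ.symm_apply_apply x.1)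
      right_inv := fun x => Subtype.ext (φ.apply_symm_apply x.1)
      map_rel_iff' := by
        intro a b
        exact φ.map_adj_iff }
  rw [← missing_iso _ _ e]
  have : (φ ⁻¹' X).ncard = X.ncard := by
    rw [← Set.ncard_image_of_injective _ φ.injective, Set.image_preimage_eq _ φ.surjective]
  rw [← this]
  exact h _

/-- **The local-to-global principle.** -/
theorem principle {V : Type} [Finite V] (e : ℕ) (he : e ≤ 1) (G : SimpleGraph V) (N : ℕ)
    (hN : ∀ U : Set V, N ≤ U.ncard → cst e * missing (G.induce U) ^ 2 ≤ U.ncard ^ 3)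
    (hloc : ∀ U : Set V, U.ncard < N → Had e (G.induce U)) : Had e G := by
  by_contra h
  obtain ⟨U, h1, _, h2⟩ := local_missing e he G h
  by_cases hU : U.ncard < N
  · exact h1 (hloc U hU)
  · have := hN U (by omega)
    omega

theorem sparse_bound {V : Type} {d : ℕ} {G : SimpleGraph V} (h : SparseCompl d G) (e : ℕ)
    (U : Set V) (hU : cst e * d ^ 2 ≤ U.ncard) :
    cst e * missing (G.induce U) ^ 2 ≤ U.ncard ^ 3 := by
  calc cst e * missing (G.induce U) ^ 2 ≤ cst e * (d * U.ncard) ^ 2 :=
        Nat.mul_le_mul_left _ (Nat.pow_le_pow_left (h U) 2)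
    _ = cst e * d ^ 2 * U.ncard ^ 2 := by ring
    _ ≤ U.ncard * U.ncard ^ 2 := Nat.mul_le_mul_right _ hU
    _ = U.ncard ^ 3 := by ring

theorem result :
    -- (1) every counterexample contains a minimal one, which has many missing edges
    (∀ e ≤ 1, ∀ (V : Type) [Finite V] (G : SimpleGraph V), ¬ Had e G →
      ∃ U : Set V, ¬ Had e (G.induce U) ∧
        (∀ X : Set U, X ≠ Set.univ → Had e ((G.induce U).induce X)) ∧
        U.ncard ^ 3 < cst e * missing (G.induce U) ^ 2) ∧
    -- (2) the local-to-global principle for sparse complements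
    (∀ e ≤ 1, ∀ (V : Type) [Finite V] (G : SimpleGraph V) (d : ℕ), SparseCompl d G →
      (∀ U : Set V, U.ncard < cst e * d ^ 2 → Had e (G.induce U)) → Had e G) ∧
    -- (3) graphs whose small induced subgraphs need no more colours than their cliques
    (∀ (V : Type) [Finite V] (G : SimpleGraph V) (d : ℕ), SparseCompl d G →
      (∀ U : Set V, U.ncard < 6400 * d ^ 2 → ∀ j : ℕ, ¬ (G.induce U).Colorable j →
        ∃ K ⊆ U, K.ncard = j + 1 ∧ ∀ x ∈ K, ∀ y ∈ K, x ≠ y → G.Adj x y) → Had 1 G) ∧
    -- (4) a finite problem for each `d` and each hereditary class of graphs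
    (∀ e ≤ 1, ∀ (d : ℕ) (P : ∀ n : ℕ, SimpleGraph (Fin n) → Prop),
      (∀ (m n : ℕ) (G : SimpleGraph (Fin n)) (G' : SimpleGraph (Fin m)), P n G →
        Nonempty (G' ↪g G) → P m G') →
      (∀ (n : ℕ) (G : SimpleGraph (Fin n)), P n G → SparseCompl d G) →
      (∀ n < cst e * d ^ 2, ∀ G : SimpleGraph (Fin n), P n G → Had e G) →
      ∀ (n : ℕ) (G : SimpleGraph (Fin n)), P n G → Had e G) := by
  have h2 : ∀ e ≤ 1, ∀ (V : Type) [Finite V] (G : SimpleGraph V) (d : ℕ), SparseCompl d G →
      (∀ U : Set V, U.ncard < cst e * d ^ 2 → Had e (G.induce U)) → Had e G :=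
    fun e he V _ G d hd hloc => principle e he G _ (fun U hU => sparse_bound hd e U hU) hloc
  refine ⟨fun e he V _ G h => local_missing e he G h, h2, ?_, ?_⟩
  · intro V _ G d hd hloc
    refine h2 1 le_rfl V G d hd ?_
    intro U hU j hj
    obtain ⟨K, hK, hcard, hadj⟩ := hloc U hU j hj
    have hfin : Finite K := inferInstance
    have hcard' : Nat.card K = j + 1 := by rw [Nat.card_coe_set_eq, hcard]
    let f : Fin (j + 1) ≃ K := (finCongr hcard').symm.trans (Finite.equivFin K).symm
    refine ⟨fun i => {⟨(f i).1, hK (f i).2⟩}, ?_, ?_, ?_⟩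
    · intro i
      exact SimpleGraph.connected_iff_exists_forall_reachable _ |>.2
        ⟨⟨_, rfl⟩, fun w => by
          have : w = ⟨⟨(f i).1, hK (f i).2⟩, rfl⟩ := Subtype.ext w.2
          rw [this]⟩
    · intro i i' hne
      rw [Set.disjoint_singleton]
      intro h
      apply hne
      have h' : (f i).1 = (f i').1 := congrArg (fun x : U => x.1) h
      exact f.injective (Subtype.ext h')
    · intro i i' hne
      refine ⟨_, rfl, _, rfl, ?_⟩
      have h3 : (f i).1 ≠ (f i').1 := fun h => hne (f.injective (Subtype.ext h))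
      exact hadj _ (f i).2 _ (f i').2 h3
  · intro e he d P hP hsp hsmall n G hG
    refine h2 e he (Fin n) G d (hsp n G hG) ?_
    intro U hU
    have hcard : Nat.card U = U.ncard := Nat.card_coe_set_eq U
    let g : U ≃ Fin U.ncard := (Finite.equivFin U).trans (finCongr hcard)
    let G' : SimpleGraph (Fin U.ncard) := (G.induce U).map g.toEmbedding
    have φ : G.induce U ≃g G' := SimpleGraph.Iso.map g (G.induce U)
    have hG' : P U.ncard G' := hP _ _ G G' hG
      ⟨(SimpleGraph.Embedding.induce U).comp φ.symm.toEmbedding⟩
    exact TH446.HN.Crit.had_iso _ _ φ.symm e (hsmall _ hU G' hG')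

end Pool.Agent.Results.MP_b47bfb_co.LocalToGlobal
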